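import Pool.Agent.Helper96.SE.Stmts
import Pool.Agent.Helper99.Grid.Box

set_option autoImplicit false

/-! (BOX) the costs of the lattice graph with tiles live in a box -/

namespace Pool.Agent.Helper96.SE

open Pool.Agent.Helper52.Grid

theorem box_hE_ne {ρ : RK} {r x : ℕ} (h : hE ρ r x ≠ 4) : x ≤ 17 := by
  unfold hE at h
  split_ifs at h with h1 h2 h3
  · omega
  · omega
  · omega
  · have := Pool.Agent.Helper99.Grid.hR_ne h
    omega

theorem box_vE_ne {ρ : RK} {i r x : ℕ} (h : vE ρ i r x ≠ 4) : x ≤ 18 := by
  unfold vE at h
  split_ifs at h with h1 h2 h3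
  · omega
  · omega
  · omega
  · have := Pool.Agent.Helper99.Grid.vR_ne h
    omega

theorem st_BOX : ST_BOX := by
  intro s M T
  have hb := Pool.Agent.Helper99.Grid.box s M
  refine ⟨?_, ?_, ?_, ?_, ?_, ?_⟩
  · intro y
    rw [hN_old (by omega)]
    exact hb.hx y
  · intro x
    by_cases h : x < 5 + 4 * s.length
    · rw [hN_old h]
      exact hb.hy x
    · rw [hN_top (by omega) (by omega), if_neg (by omega)]
  · intro y
    rw [vN_old (by omega)]
    exact hb.vx y
  · intro x
    by_cases h : x < 5 + 4 * s.length
    · rw [vN_old h]
      exact hb.vy x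
    · rw [vN_top (by omega) (by omega), if_neg (by omega)]
  · intro x y h
    by_cases hx : x < 5 + 4 * s.length
    · rw [hN_old hx] at h
      have := hb.hN x y h
      omega
    · unfold hN at h
      rw [if_neg hx] at h
      split_ifs at h with h1 h2 h3
      · omega
      · exact absurd rfl h
      · have := box_hE_ne h
        omega
      · exact absurd rfl h
  · intro x y h
    by_cases hx : x < 5 + 4 * s.length
    · rw [vN_old hx] at h
      have := hb.vN x y h
      omega
    · unfold vN at h
      rw [if_neg hx] at h
      split_ifs at h with h1 h2 h3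
      · omega
      · exact absurd rfl h
      · have := box_vE_ne h
        omega
      · exact absurd rfl h

end Pool.Agent.Helper96.SE
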